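import Pool.Agent.R156.Out.TwoPiece_MP_4a7072_co

/-!
# Dissecting a cube-folding polyomino for a Pythagorean triple into two pieces

For every positive integer `m` the least admissible number of pieces for the Pythagorean triple
`(3 m, 4 m, 5 m)` is `2`.
-/

set_option autoImplicit false

namespace Pool.Agent.Results.MP_842ac8_co.TwoPieces

open Pool.Agent.Results.MP_4a7072_co.TwoPiece

/-! ## Definitions

The definitions of a cell, of `IsPolyomino` (simply connected polyominoes) and of `FoldsToCube`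
(foldings along grid edges onto the surface of a cube) are those of the imported file. -/

/-- A polyomino: a nonempty finite set of cells which is edge-connected. -/
def IsPoly (P : Finset Cell) : Prop := P.Nonempty ∧ EdgeConnected (P : Set Cell)

/-- The action on the cells of an isometry of the plane which maps the grid onto itself: up to a
translation it is one of the eight symmetries of the square. -/
def GridIsometry (φ : Cell → Cell) : Prop :=
  ∃ ε δ s t : ℤ, (ε = 1 ∨ ε = -1) ∧ (δ = 1 ∨ δ = -1) ∧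
    ((∀ c, φ c = (ε * c.1 + s, δ * c.2 + t)) ∨ (∀ c, φ c = (ε * c.2 + s, δ * c.1 + t)))

/-- The sets `Q i`, `i ∈ I`, glue into `R`: copies of them, each moved by a grid isometry, are
pairwise disjoint and their union is `R`. -/
def Glue {k : ℕ} (I : Finset (Fin k)) (Q : Fin k → Finset Cell) (R : Finset Cell) : Prop :=
  ∃ φ : Fin k → Cell → Cell, (∀ i ∈ I, GridIsometry (φ i)) ∧
    (∀ i ∈ I, ∀ j ∈ I, i ≠ j → Disjoint ((Q i).image (φ i)) ((Q j).image (φ j))) ∧
    (∀ c, c ∈ R ↔ ∃ i ∈ I, c ∈ (Q i).image (φ i))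

/-- `k` is admissible for `(a, b, c)`: a polyomino `Pc` folding onto the cube of edge `c` is divided
into `k` polyominoes `Q i`, and the indices are partitioned into `I` and `J` such that the pieces of
`I` glue into a polyomino folding onto the cube of edge `a` and the pieces of `J` glue into a
polyomino folding onto the cube of edge `b`. -/
def Admissible (a b c k : ℕ) : Prop :=
  ∃ (Pa Pb Pc : Finset Cell) (Q : Fin k → Finset Cell) (I J : Finset (Fin k)),
    IsPoly Pa ∧ IsPoly Pb ∧ IsPoly Pc ∧ (∀ i, IsPoly (Q i)) ∧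
    FoldsToCube Pa a ∧ FoldsToCube Pb b ∧ FoldsToCube Pc c ∧
    (∀ i j, i ≠ j → Disjoint (Q i) (Q j)) ∧ (∀ c, c ∈ Pc ↔ ∃ i, c ∈ Q i) ∧
    Disjoint I J ∧ I ∪ J = Finset.univ ∧ Glue I Q Pa ∧ Glue J Q Pb

/-! ## Proof -/

theorem IsPolyomino.isPoly {P : Finset Cell} (h : IsPolyomino P) : IsPoly P := ⟨h.1, h.2.1⟩

theorem gridIsometry_id : GridIsometry (fun c => c) :=
  ⟨1, 1, 0, 0, Or.inl rfl, Or.inl rfl, Or.inl (fun c => by simp)⟩

theorem admissible_two {a b c : ℕ} (h : TwoPiece a b c) : Admissible a b c 2 := by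
  obtain ⟨Pa, Pb, Pc, h1, h2, h3, h4, h5, h6, h7, h8⟩ := h
  refine ⟨Pa, Pb, Pc, ![Pa, Pb], {0}, {1}, IsPolyomino.isPoly h1, IsPolyomino.isPoly h2,
    IsPolyomino.isPoly h3, ?_, h6, h7, h8, ?_, ?_, by decide, by decide, ?_, ?_⟩
  · intro i
    fin_cases i
    · exact IsPolyomino.isPoly h1
    · exact IsPolyomino.isPoly h2
  · intro i j hij
    fin_cases i <;> fin_cases j
    · exact absurd rfl hij
    · exact h4
    · exact h4.symm
    · exact absurd rfl hij
  · intro q
    rw [← h5, Finset.mem_union]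
    constructor
    · rintro (h | h)
      · exact ⟨0, h⟩
      · exact ⟨1, h⟩
    · rintro ⟨i, h⟩
      fin_cases i
      · exact Or.inl h
      · exact Or.inr h
  · refine ⟨fun _ c => c, fun _ _ => gridIsometry_id, ?_, ?_⟩
    · intro i hi j hj hij
      rw [Finset.mem_singleton] at hi hj
      exact absurd (hi.trans hj.symm) hij
    · intro q
      simp
  · refine ⟨fun _ c => c, fun _ _ => gridIsometry_id, ?_, ?_⟩
    · intro i hi j hj hij
      rw [Finset.mem_singleton] at hi hj
      exact absurd (hi.trans hj.symm) hij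
    · intro q
      simp

theorem two_le {a b c k : ℕ} (h : Admissible a b c k) : 2 ≤ k := by
  obtain ⟨Pa, Pb, Pc, Q, I, J, ⟨⟨p, hp⟩, _⟩, ⟨⟨q, hq⟩, _⟩, _, _, _, _, _, _, _, hIJ, _,
    ⟨φ, _, _, hφ⟩, ⟨ψ, _, _, hψ⟩⟩ := h
  obtain ⟨i, hi, _⟩ := (hφ p).mp hp
  obtain ⟨j, hj, _⟩ := (hψ q).mp hq
  have hne : i ≠ j := by
    rintro rfl
    exact Finset.disjoint_left.mp hIJ hi hj
  by_contra hk
  have h1 := i.isLt
  have h2 := j.isLt
  exact hne (Fin.ext (by omega))

/-- For every positive multiple `(3 m, 4 m, 5 m)` of the Pythagorean triple `(3, 4, 5)` the least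
admissible number of pieces is `2`. -/
theorem result : ∀ m : ℕ, 0 < m → IsLeast {k | Admissible (m * 3) (m * 4) (m * 5) k} 2 :=
  fun m hm => ⟨admissible_two (Pool.Agent.Results.MP_4a7072_co.TwoPiece.result m hm),
    fun _ hk => two_le hk⟩

end Pool.Agent.Results.MP_842ac8_co.TwoPieces
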